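import Pool.Agent.Helper24_TF.Kit

/-! Squad TF, row PR1 (helper24): the averages of `log cnt`. -/

set_option autoImplicit false

open scoped Pointwise

namespace Pool.Agent.TF.H24

open Pool.Agent.TF

/-- PR1 -/
theorem pr1 (L : Lib) (cnw : CnwStmt) (cns : CnsStmt) (_ : Al1Stmt) : Pr1Stmt := by
  intro G _ _ _ n F l e Ω _ P x k j hB hs hH
  obtain ⟨K, hK⟩ : ∃ K, K = P.H (fun ω => (k ω, j ω)) := ⟨_, rfl⟩
  obtain ⟨X, hX⟩ : ∃ X, X = P.C x (fun ω => (k ω, j ω)) := ⟨_, rfl⟩
  have hXK : P.H (fun ω => (x ω, (k ω, j ω))) = X + K := by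
    rw [hX, hK]
    unfold Law.C
    ring
  have hK1 : K ≤ l + 2 * e := by
    rw [hK]
    exact K_le F P k j L hB
  have hX1 : X ≤ l := by
    rw [hX]
    exact X_le F P x k j L hB
  have hX2 : l - 3 * e ≤ X := by linarith
  have hK2 : l - e ≤ K := by linarith
  -- the sets `W`
  obtain ⟨W, hW⟩ : ∃ W : Bool → ℝ, W = fun t => P.E (fun ω => Real.log
      (((F.D (k ω) ∩ F.D (j ω)).image (F.w t (k ω) (j ω))).card : ℝ)) := ⟨_, rfl⟩
  have hW1 : ∀ t, W t ≤ l / 2 + 2 * e := by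
    intro t
    have h1 := KW_le F P x k j L hB t hs
    rw [← hK] at h1
    have h2 : K + W t ≤ 3 * l / 2 + e := by
      rw [hW]
      exact h1
    linarith
  have hmem : ∀ ω, P.p ω ≠ 0 → x ω ∈ F.D (k ω) ∩ F.D (j ω) :=
    fun ω h0 => Finset.mem_inter.2 (hs ω h0)
  have hcpos : ∀ σ τ ω, P.p ω ≠ 0 → (0 : ℝ) < F.cnt σ τ (k ω) (j ω) (x ω) := by
    intro σ τ ω h0
    have h1 := cnt_pos F σ τ (k ω) (j ω) (hs ω h0).1 (hs ω h0).2
    exact_mod_cast h1
  obtain ⟨c, hc⟩ : ∃ c : Bool → Bool → ℝ, c = fun σ τ =>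
      P.E (fun ω => Real.log (F.cnt σ τ (k ω) (j ω) (x ω))) := ⟨_, rfl⟩
  -- lower bounds for `c`
  have hlow : ∀ t, X - (c false t + c true (!t)) ≤ l / 2 + 2 * e := by
    intro t
    have h1 := gic_le P L x (fun ω => (k ω, j ω)) (fun u => F.D u.1 ∩ F.D u.2)
      (fun u v => (1 : ℝ) / ((F.cnt false t u.1 u.2 v : ℝ) * (F.cnt true (!t) u.1 u.2 v : ℝ)))
      (fun ω => Real.log (((F.D (k ω) ∩ F.D (j ω)).image (F.w t (k ω) (j ω))).card : ℝ))
      (fun u v _ => by positivity)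
      (fun ω h0 => ⟨hmem ω h0, by
        have h1 := hcpos false t ω h0
        have h2 := hcpos true (!t) ω h0
        exact div_pos one_pos (mul_pos h1 h2)⟩)
      (fun ω h0 => by
        apply Real.log_le_log
        · apply sum_pos_of _ (hmem ω h0)
          · have h1 := hcpos false t ω h0
            have h2 := hcpos true (!t) ω h0
            exact div_pos one_pos (mul_pos h1 h2)
          · intro v _
            positivity
        · exact cnw G n F (k ω) (j ω) t)
    have h2 : P.E (fun ω => Real.log ((fun (u : Fin n × Fin n) (v : G) => (1 : ℝ) /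
        ((F.cnt false t u.1 u.2 v : ℝ) * (F.cnt true (!t) u.1 u.2 v : ℝ))) (k ω, j ω) (x ω))) =
        -(c false t + c true (!t)) := by
      rw [hc]
      show _ = -(P.E _ + P.E _)
      rw [← E_add, ← E_neg]
      apply E_congr
      intro ω h0
      have h1 := hcpos false t ω h0
      have h2 := hcpos true (!t) ω h0
      show Real.log ((1 : ℝ) / ((F.cnt false t (k ω) (j ω) (x ω) : ℝ) *
        (F.cnt true (!t) (k ω) (j ω) (x ω) : ℝ))) = _
      rw [one_div, Real.log_inv, Real.log_mul h1.ne' h2.ne']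
    rw [h2, ← hX] at h1
    have h3 := hW1 t
    rw [hW] at h3
    have h4 : X + -(c false t + c true (!t)) ≤ l / 2 + 2 * e := h1.trans h3
    linarith
  -- upper bounds for `c`
  have hGpos : (0 : ℝ) < Fintype.card G := by
    have : 0 < Fintype.card G := Fintype.card_pos_iff.2 ⟨0⟩
    exact_mod_cast this
  have hup : ∀ (σ τ σ' τ' : Bool) (κ : Ω → Fin n) (ρ : Bool),
      (∀ ω, P.p ω ≠ 0 → ((F.D (κ ω)).image (F.lab ρ (κ ω))).Nonempty) →
      (∀ ω, P.p ω ≠ 0 → ∑ v ∈ F.D (k ω) ∩ F.D (j ω),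
        (F.cnt σ τ (k ω) (j ω) v : ℝ) * (F.cnt σ' τ' (k ω) (j ω) v : ℝ)
        ≤ (Fintype.card G : ℝ) * (((F.D (κ ω)).image (F.lab ρ (κ ω))).card : ℝ)) →
      X + (c σ τ + c σ' τ') ≤ l + (l / 2 + e) := by
    intro σ τ σ' τ' κ ρ hne hsum
    have h1 := gic_le P L x (fun ω => (k ω, j ω)) (fun u => F.D u.1 ∩ F.D u.2)
      (fun u v => (F.cnt σ τ u.1 u.2 v : ℝ) * (F.cnt σ' τ' u.1 u.2 v : ℝ))
      (fun _ => l + (l / 2 + e))
      (fun u v _ => by positivity)
      (fun ω h0 => ⟨hmem ω h0, mul_pos (hcpos σ τ ω h0) (hcpos σ' τ' ω h0)⟩)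
      (fun ω h0 => by
        have hA : (0 : ℝ) < (((F.D (κ ω)).image (F.lab ρ (κ ω))).card : ℝ) := by
          have := Finset.card_pos.2 (hne ω h0)
          exact_mod_cast this
        have h2 : Real.log (∑ s ∈ F.D (k ω) ∩ F.D (j ω),
            (F.cnt σ τ (k ω) (j ω) s : ℝ) * (F.cnt σ' τ' (k ω) (j ω) s : ℝ)) ≤
            Real.log ((Fintype.card G : ℝ) * (((F.D (κ ω)).image (F.lab ρ (κ ω))).card : ℝ)) := by
          apply Real.log_le_log
          · apply sum_pos_of _ (hmem ω h0)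
            · exact mul_pos (hcpos σ τ ω h0) (hcpos σ' τ' ω h0)
            · intro v _
              positivity
          · exact hsum ω h0
        rw [Real.log_mul hGpos.ne' hA.ne', hB.hN] at h2
        have h3 := hB.hlab ρ (κ ω)
        exact h2.trans (by linarith))
    have h2 : P.E (fun ω => Real.log ((fun (u : Fin n × Fin n) (v : G) =>
        (F.cnt σ τ u.1 u.2 v : ℝ) * (F.cnt σ' τ' u.1 u.2 v : ℝ)) (k ω, j ω) (x ω))) =
        c σ τ + c σ' τ' := by
      rw [hc]
      show _ = P.E _ + P.E _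
      rw [← E_add]
      apply E_congr
      intro ω h0
      exact Real.log_mul (hcpos σ τ ω h0).ne' (hcpos σ' τ' ω h0).ne'
    rw [h2, ← hX, E_const] at h1
    exact h1
  have hupk : ∀ σ τ, X + (c σ τ + c σ (!τ)) ≤ l + (l / 2 + e) := fun σ τ =>
    hup σ τ σ (!τ) k (!σ) (fun ω h0 => ⟨_, Finset.mem_image_of_mem _ (hs ω h0).1⟩)
      (fun ω _ => (cns G n F (k ω) (j ω) σ τ).1)
  have hupj : ∀ σ τ, X + (c σ τ + c (!σ) τ) ≤ l + (l / 2 + e) := fun σ τ =>
    hup σ τ (!σ) τ j (!τ) (fun ω h0 => ⟨_, Finset.mem_image_of_mem _ (hs ω h0).2⟩)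
      (fun ω _ => (cns G n F (k ω) (j ω) σ τ).2)
  have a1 : X + (c false false + c false true) ≤ l + (l / 2 + e) := hupk false false
  have a2 : X + (c true false + c true true) ≤ l + (l / 2 + e) := hupk true false
  have a3 : X + (c false false + c true false) ≤ l + (l / 2 + e) := hupj false false
  have a4 : X + (c false true + c true true) ≤ l + (l / 2 + e) := hupj false true
  have b1 : X - (c false true + c true false) ≤ l / 2 + 2 * e := hlow true
  have b2 : X - (c false false + c true true) ≤ l / 2 + 2 * e := hlow false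
  have he := hB.e0
  refine ⟨by rw [← hX]; exact hX2, by rw [← hK]; exact hK2, ?_, ?_⟩
  · intro t
    have h1 := gic_card P L (fun ω => F.w t (k ω) (j ω) (x ω)) (fun ω => (k ω, j ω))
      (fun u => (F.D u.1 ∩ F.D u.2).image (F.w t u.1 u.2))
      (fun ω h0 => Finset.mem_image_of_mem _ (hmem ω h0))
    have h2 := hW1 t
    rw [hW] at h2
    exact h1.trans h2
  · intro σ τ
    have h1 : P.E (fun ω => Real.log (F.cnt σ τ (k ω) (j ω) (x ω))) = c σ τ := by rw [hc]
    rw [h1]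
    cases σ <;> cases τ <;> constructor <;> linarith

end Pool.Agent.TF.H24
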