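import Pool.Agent.Helper24_TF.Kit

/-! Squad TF, row UPP (helper24): `p`-edges. -/

set_option autoImplicit false

open scoped Pointwise

namespace Pool.Agent.TF.H24

open Pool.Agent.TF

/-- UPP -/
theorem upp (L : Lib) (cnq : CnqStmt) : UppStmt := by
  intro G _ _ _ n F l e Ω _ P x y k j hB hs
  have hs' : ∀ ω, P.p ω ≠ 0 → x ω ∈ F.D (k ω) ∧ x ω ∈ F.D (j ω) :=
    fun ω h0 => ⟨(hs ω h0).1, (hs ω h0).2.1⟩
  have hmem : ∀ ω, P.p ω ≠ 0 → x ω ∈ F.D (k ω) ∩ F.D (j ω) :=
    fun ω h0 => Finset.mem_inter.2 (hs' ω h0)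
  have hcpos : ∀ σ τ ω, P.p ω ≠ 0 → (0 : ℝ) < F.cnt σ τ (k ω) (j ω) (x ω) := by
    intro σ τ ω h0
    have h1 := cnt_pos F σ τ (k ω) (j ω) (hs' ω h0).1 (hs' ω h0).2
    exact_mod_cast h1
  -- second clause
  have h2 : P.C y (fun ω => (x ω, (k ω, j ω))) ≤
      P.E (fun ω => Real.log (F.cnt false false (k ω) (j ω) (x ω))) := by
    have h1 := gic_card P L y (fun ω => (x ω, (k ω, j ω)))
      (fun u => (F.D u.2.1 ∩ F.D u.2.2).filter (fun v =>
        F.lab false u.2.1 v = F.lab false u.2.1 u.1 ∧ F.lab false u.2.2 v = F.lab false u.2.2 u.1))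
      (fun ω h0 => by
        obtain ⟨_, _, h3, h4, h5, h6⟩ := hs ω h0
        exact Finset.mem_filter.2 ⟨Finset.mem_inter.2 ⟨h3, h4⟩, h5, h6⟩)
    exact h1
  refine ⟨?_, h2⟩
  obtain ⟨K, hK⟩ : ∃ K, K = P.H (fun ω => (k ω, j ω)) := ⟨_, rfl⟩
  obtain ⟨X, hX⟩ : ∃ X, X = P.C x (fun ω => (k ω, j ω)) := ⟨_, rfl⟩
  obtain ⟨c, hc⟩ : ∃ c, c = P.E (fun ω => Real.log (F.cnt false false (k ω) (j ω) (x ω))) :=
    ⟨_, rfl⟩
  have hXK : P.H (fun ω => (x ω, (k ω, j ω))) = X + K := by
    rw [hX, hK]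
    unfold Law.C
    ring
  obtain ⟨W, hW⟩ : ∃ W : ℝ, W = P.E (fun ω => Real.log
      (((F.D (k ω) ∩ F.D (j ω)).image (F.w true (k ω) (j ω))).card : ℝ)) := ⟨_, rfl⟩
  have hKW : K + W ≤ 3 * l / 2 + e := by
    rw [hK, hW]
    exact KW_le F P x k j L hB true hs'
  -- the sum of the squares
  have hXc : X + (c + c) ≤ (l + 2 * e) + W := by
    have h1 := gic_le P L x (fun ω => (k ω, j ω)) (fun u => F.D u.1 ∩ F.D u.2)
      (fun u v => (F.cnt false false u.1 u.2 v : ℝ) ^ 2)
      (fun ω => (l + 2 * e) + Real.log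
        (((F.D (k ω) ∩ F.D (j ω)).image (F.w true (k ω) (j ω))).card : ℝ))
      (fun u v _ => by positivity)
      (fun ω h0 => ⟨hmem ω h0, pow_pos (hcpos false false ω h0) 2⟩)
      (fun ω h0 => by
        have hA : (0 : ℝ) < (((F.D (k ω)).image (F.lab true (k ω))).card : ℝ) := by
          have : 0 < ((F.D (k ω)).image (F.lab true (k ω))).card :=
            Finset.card_pos.2 ⟨_, Finset.mem_image_of_mem _ (hs' ω h0).1⟩
          exact_mod_cast this
        have hA' : (0 : ℝ) < (((F.D (j ω)).image (F.lab true (j ω))).card : ℝ) := by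
          have : 0 < ((F.D (j ω)).image (F.lab true (j ω))).card :=
            Finset.card_pos.2 ⟨_, Finset.mem_image_of_mem _ (hs' ω h0).2⟩
          exact_mod_cast this
        have hWp : (0 : ℝ) <
            (((F.D (k ω) ∩ F.D (j ω)).image (F.w true (k ω) (j ω))).card : ℝ) := by
          have : 0 < ((F.D (k ω) ∩ F.D (j ω)).image (F.w true (k ω) (j ω))).card :=
            Finset.card_pos.2 ⟨_, Finset.mem_image_of_mem _ (hmem ω h0)⟩
          exact_mod_cast this
        have h2 : Real.log (∑ s ∈ F.D (k ω) ∩ F.D (j ω),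
            (F.cnt false false (k ω) (j ω) s : ℝ) ^ 2) ≤
            Real.log ((((F.D (k ω)).image (F.lab true (k ω))).card : ℝ) *
              (((F.D (j ω)).image (F.lab true (j ω))).card : ℝ) *
              (((F.D (k ω) ∩ F.D (j ω)).image (F.w true (k ω) (j ω))).card : ℝ)) := by
          apply Real.log_le_log
          · apply sum_pos_of _ (hmem ω h0)
            · exact pow_pos (hcpos false false ω h0) 2
            · intro v _
              positivity
          · exact cnq G n F (k ω) (j ω)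
        rw [Real.log_mul (mul_pos hA hA').ne' hWp.ne', Real.log_mul hA.ne' hA'.ne'] at h2
        have h3 := hB.hlab true (k ω)
        have h4 := hB.hlab true (j ω)
        exact h2.trans (by linarith))
    have h2 : P.E (fun ω => Real.log ((fun (u : Fin n × Fin n) (v : G) =>
        (F.cnt false false u.1 u.2 v : ℝ) ^ 2) (k ω, j ω) (x ω))) = c + c := by
      rw [hc, ← E_add]
      apply E_congr
      intro ω h0
      have h5 := (hcpos false false ω h0).ne'
      show Real.log ((F.cnt false false (k ω) (j ω) (x ω) : ℝ) ^ 2) = _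
      rw [pow_two, Real.log_mul h5 h5]
    rw [h2, ← hX, E_add, E_const, ← hW] at h1
    exact h1
  -- the total
  have hT : P.H (fun ω => ((x ω, y ω), (k ω, j ω))) ≤ P.H (fun ω => (y ω, (x ω, (k ω, j ω)))) := by
    apply L.mon.1
    intro ω ω' _ _ h
    have h1 : y ω = y ω' := congrArg Prod.fst h
    have h3 : (x ω, (k ω, j ω)) = (x ω', (k ω', j ω')) := congrArg Prod.snd h
    have h4 : x ω = x ω' := congrArg Prod.fst h3
    have h5 : (k ω, j ω) = (k ω', j ω') := congrArg Prod.snd h3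
    show ((x ω, y ω), (k ω, j ω)) = ((x ω', y ω'), (k ω', j ω'))
    rw [h1, h4, h5]
  have hT2 : P.C y (fun ω => (x ω, (k ω, j ω))) =
      P.H (fun ω => (y ω, (x ω, (k ω, j ω)))) - P.H (fun ω => (x ω, (k ω, j ω))) := rfl
  rw [← hc, hT2] at h2
  linarith

end Pool.Agent.TF.H24
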