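import Pool.Agent.TF.Stmts

/-! Squad TF, helper24: expectations, and the Gibbs inequalities for the sizes of the sets `W`. -/

set_option autoImplicit false

open scoped Pointwise

namespace Pool.Agent.TF.H24

open Pool.Agent.TF

section ex

variable {Ω : Type} [Fintype Ω] (P : Law Ω)

theorem E_mono {f g : Ω → ℝ} (h : ∀ ω, P.p ω ≠ 0 → f ω ≤ g ω) : P.E f ≤ P.E g := by
  unfold Law.E
  apply Finset.sum_le_sum
  intro ω _
  by_cases h0 : P.p ω = 0
  · rw [h0, zero_mul, zero_mul]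
  · exact mul_le_mul_of_nonneg_left (h ω h0) (P.nn ω)

theorem E_congr {f g : Ω → ℝ} (h : ∀ ω, P.p ω ≠ 0 → f ω = g ω) : P.E f = P.E g :=
  le_antisymm (E_mono P (fun ω h0 => (h ω h0).le)) (E_mono P (fun ω h0 => (h ω h0).ge))

theorem E_const (c : ℝ) : P.E (fun _ => c) = c := by
  unfold Law.E
  rw [← Finset.sum_mul, P.one, one_mul]

theorem E_add (f g : Ω → ℝ) : P.E (fun ω => f ω + g ω) = P.E f + P.E g := by
  unfold Law.E
  rw [← Finset.sum_add_distrib]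
  apply Finset.sum_congr rfl
  intro ω _
  rw [mul_add]

theorem E_neg (f : Ω → ℝ) : P.E (fun ω => -f ω) = -P.E f := by
  unfold Law.E
  rw [← Finset.sum_neg_distrib]
  apply Finset.sum_congr rfl
  intro ω _
  rw [mul_neg]

theorem E_le {f : Ω → ℝ} {c : ℝ} (h : ∀ ω, P.p ω ≠ 0 → f ω ≤ c) : P.E f ≤ c := by
  have h1 := E_mono P (g := fun _ => c) h
  rwa [E_const] at h1

/-- Gibbs inequality, weight `1` -/
theorem gib_card (L : Lib) {S : Type} (X : Ω → S) (T : Finset S)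
    (h : ∀ ω, P.p ω ≠ 0 → X ω ∈ T) : P.H X ≤ Real.log T.card := by
  have h1 := L.gib Ω S P X T (fun _ => 1) (fun _ _ => zero_le_one)
    (fun ω h0 => ⟨h ω h0, zero_lt_one⟩)
  have e1 : P.E (fun ω => Real.log ((fun _ : S => (1 : ℝ)) (X ω))) = 0 := by
    have : (fun ω => Real.log ((fun _ : S => (1 : ℝ)) (X ω))) = fun _ : Ω => (0 : ℝ) := by
      funext ω
      exact Real.log_one
    rw [this, E_const]
  have e2 : ∑ _s ∈ T, (1 : ℝ) = (T.card : ℝ) := by
    rw [Finset.sum_const, nsmul_eq_mul, mul_one]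
  rw [e1, e2, add_zero] at h1
  exact h1

/-- conditional Gibbs inequality, weight `1` -/
theorem gic_card (L : Lib) {S U : Type} (X : Ω → S) (Y : Ω → U) (T : U → Finset S)
    (h : ∀ ω, P.p ω ≠ 0 → X ω ∈ T (Y ω)) :
    P.C X Y ≤ P.E (fun ω => Real.log ((T (Y ω)).card : ℝ)) := by
  have h1 := L.gic Ω S U P X Y T (fun _ _ => 1) (fun _ _ _ => zero_le_one)
    (fun ω h0 => ⟨h ω h0, zero_lt_one⟩)
  have e1 : P.E (fun ω => Real.log ((fun (_ : U) (_ : S) => (1 : ℝ)) (Y ω) (X ω))) = 0 := by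
    have : (fun ω => Real.log ((fun (_ : U) (_ : S) => (1 : ℝ)) (Y ω) (X ω))) =
        fun _ : Ω => (0 : ℝ) := by
      funext ω
      exact Real.log_one
    rw [this, E_const]
  have e2 : (fun ω => Real.log (∑ s ∈ T (Y ω), (fun (_ : U) (_ : S) => (1 : ℝ)) (Y ω) s)) =
      fun ω => Real.log ((T (Y ω)).card : ℝ) := by
    funext ω
    show Real.log (∑ _s ∈ T (Y ω), (1 : ℝ)) = _
    rw [Finset.sum_const, nsmul_eq_mul, mul_one]
  rw [e1, e2, add_zero] at h1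
  exact h1

/-- conditional Gibbs inequality with an upper bound for the total weight -/
theorem gic_le (L : Lib) {S U : Type} (X : Ω → S) (Y : Ω → U) (T : U → Finset S) (g : U → S → ℝ)
    (B : Ω → ℝ) (hg : ∀ u, ∀ s ∈ T u, 0 ≤ g u s)
    (h : ∀ ω, P.p ω ≠ 0 → X ω ∈ T (Y ω) ∧ 0 < g (Y ω) (X ω))
    (hB : ∀ ω, P.p ω ≠ 0 → Real.log (∑ s ∈ T (Y ω), g (Y ω) s) ≤ B ω) :
    P.C X Y + P.E (fun ω => Real.log (g (Y ω) (X ω))) ≤ P.E B :=
  (L.gic Ω S U P X Y T g hg h).trans (E_mono P hB)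

theorem sum_pos_of {S : Type} {T : Finset S} {g : S → ℝ} (hg : ∀ s ∈ T, 0 ≤ g s) {s : S}
    (hs : s ∈ T) (h : 0 < g s) : 0 < ∑ s ∈ T, g s :=
  Finset.sum_pos' hg ⟨s, hs, h⟩

end ex

section fam

variable {G : Type} [AddCommGroup G] [Fintype G] [DecidableEq G] {n : ℕ} (F : Fam G n)

theorem cnt_pos (σ τ : Bool) (k j : Fin n) {x : G} (hk : x ∈ F.D k) (hj : x ∈ F.D j) :
    0 < F.cnt σ τ k j x := by
  unfold Fam.cnt
  rw [Finset.card_pos]
  exact ⟨x, Finset.mem_filter.2 ⟨Finset.mem_inter.2 ⟨hk, hj⟩, rfl, rfl⟩⟩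

variable {l e : ℝ} {Ω : Type} [Fintype Ω] (P : Law Ω) (x : Ω → G) (k j : Ω → Fin n)

theorem n_pos (P : Law Ω) (k : Ω → Fin n) : 0 < n := by
  have h : ∃ ω : Ω, True := by
    by_contra hcon
    have h1 := P.one
    have : IsEmpty Ω := ⟨fun ω => hcon ⟨ω, trivial⟩⟩
    rw [Finset.univ_eq_empty, Finset.sum_empty] at h1
    exact zero_ne_one h1
  obtain ⟨ω, _⟩ := h
  exact (k ω).pos

/-- `H(k,j) ≤ l + 2e` -/
theorem K_le (L : Lib) (hB : Base F l e) : P.H (fun ω => (k ω, j ω)) ≤ l + 2 * e := by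
  have h1 := gib_card P L (fun ω => (k ω, j ω)) Finset.univ (fun _ _ => Finset.mem_univ _)
  have hn : (0 : ℝ) < n := by exact_mod_cast n_pos P k
  have e1 : (((Finset.univ : Finset (Fin n × Fin n)).card : ℕ) : ℝ) = (n : ℝ) * n := by
    rw [Finset.card_univ, Fintype.card_prod, Fintype.card_fin, Nat.cast_mul]
  rw [e1, Real.log_mul hn.ne' hn.ne'] at h1
  have h2 := hB.hn
  linarith

/-- `H(x|k,j) ≤ l` -/
theorem X_le (L : Lib) (hB : Base F l e) : P.C x (fun ω => (k ω, j ω)) ≤ l := by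
  have h1 := gic_card P L x (fun ω => (k ω, j ω)) (fun _ => Finset.univ)
    (fun _ _ => Finset.mem_univ _)
  have e1 : (fun _ : Ω => Real.log (((Finset.univ : Finset G).card : ℕ) : ℝ)) = fun _ => l := by
    funext _
    rw [Finset.card_univ]
    exact hB.hN
  rw [e1, E_const] at h1
  exact h1

/-- `H(k,j) + E log |W_kj| ≤ 3l/2 + e` -/
theorem KW_le (L : Lib) (hB : Base F l e) (t : Bool)
    (hs : ∀ ω, P.p ω ≠ 0 → x ω ∈ F.D (k ω) ∧ x ω ∈ F.D (j ω)) :
    P.H (fun ω => (k ω, j ω)) + P.E (fun ω => Real.log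
      (((F.D (k ω) ∩ F.D (j ω)).image (F.w t (k ω) (j ω))).card : ℝ)) ≤ 3 * l / 2 + e := by
  have hpos : ∀ ω, P.p ω ≠ 0 →
      0 < (((F.D (k ω) ∩ F.D (j ω)).image (F.w t (k ω) (j ω))).card : ℝ) := by
    intro ω h0
    have h1 : 0 < ((F.D (k ω) ∩ F.D (j ω)).image (F.w t (k ω) (j ω))).card := by
      rw [Finset.card_pos]
      exact ⟨_, Finset.mem_image_of_mem _ (Finset.mem_inter.2 (hs ω h0))⟩
    exact_mod_cast h1
  have h1 := L.gib Ω (Fin n × Fin n) P (fun ω => (k ω, j ω)) Finset.univ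
    (fun u => (((F.D u.1 ∩ F.D u.2).image (F.w t u.1 u.2)).card : ℝ))
    (fun _ _ => Nat.cast_nonneg _) (fun ω h0 => ⟨Finset.mem_univ _, hpos ω h0⟩)
  have hn : (0 : ℝ) < n := by exact_mod_cast n_pos P k
  have hG : (0 : ℝ) < Fintype.card G := by
    have : 0 < Fintype.card G := Fintype.card_pos_iff.2 ⟨0⟩
    exact_mod_cast this
  have hex : ∃ ω, P.p ω ≠ 0 := by
    by_contra hcon
    push Not at hcon
    have h2 := P.one
    rw [Finset.sum_eq_zero (fun ω _ => hcon ω)] at h2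
    exact zero_ne_one h2
  obtain ⟨ω₀, h0⟩ := hex
  have h2 : Real.log (∑ u : Fin n × Fin n,
      (((F.D u.1 ∩ F.D u.2).image (F.w t u.1 u.2)).card : ℝ)) ≤
      Real.log ((n : ℝ) * Fintype.card G) := by
    apply Real.log_le_log
    · exact sum_pos_of (fun _ _ => Nat.cast_nonneg _) (Finset.mem_univ (k ω₀, j ω₀)) (hpos ω₀ h0)
    · rw [Fintype.sum_prod_type]
      exact hB.hW t
  rw [Real.log_mul hn.ne' hG.ne', hB.hN] at h2
  have h3 := hB.hn
  have h4 := h1.trans h2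
  have h5 : P.H (fun ω => (k ω, j ω)) + P.E (fun ω => Real.log
      (((F.D (k ω) ∩ F.D (j ω)).image (F.w t (k ω) (j ω))).card : ℝ)) ≤ Real.log n + l := h4
  linarith

end fam

end Pool.Agent.TF.H24
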